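import Pool.Agent.Helper98.LM.St

/-!
# Project LM, module LOC: local densities
-/

set_option autoImplicit false

noncomputable section

namespace Pool.Agent.Helper26.LM

open Finset
open Pool.Agent.Helper98.LM

/-- the roots of the quadratic polynomial -/
private def RR (l : ℕ) [NeZero l] (k : ZMod l) : Finset (ZMod l) :=
  univ.filter (fun x : ZMod l => x ^ 2 - x * k + k ^ 2 = 0)

private theorem memRR {l : ℕ} [NeZero l] (k x : ZMod l) :
    x ∈ RR l k ↔ x ^ 2 - x * k + k ^ 2 = 0 := by
  unfold RR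
  simp

private theorem memSS {P a k l : ℕ} (s : ℕ) :
    s ∈ SS P a k l ↔ s < l ∧
      ((a : ZMod l) + P * s) ^ 2 - ((a : ZMod l) + P * s) * k + (k : ZMod l) ^ 2 = 0 := by
  unfold SS fz
  rw [mem_filter, mem_range, ← ZMod.intCast_zmod_eq_zero_iff_dvd]
  push_cast
  rfl

private theorem cardSS {P a l : ℕ} (hl : l.Prime) [NeZero l] (hP : ¬ l ∣ P) (k : ℕ) :
    (SS P a k l).card = (RR l (k : ZMod l)).card := by
  haveI : Fact l.Prime := ⟨hl⟩
  have hP0 : (P : ZMod l) ≠ 0 := by
    rw [Ne, ZMod.natCast_eq_zero_iff]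
    exact hP
  refine Finset.card_bij (fun s _ => (a : ZMod l) + P * s) ?_ ?_ ?_
  · intro s hs
    exact (memRR _ _).2 ((memSS s).1 hs).2
  · intro s hs t ht hst
    have h1 := ((memSS s).1 hs).1
    have h2 := ((memSS t).1 ht).1
    have h3 : (P : ZMod l) * s = P * t := add_left_cancel hst
    have h4 := mul_left_cancel₀ hP0 h3
    rw [ZMod.natCast_eq_natCast_iff', Nat.mod_eq_of_lt h1, Nat.mod_eq_of_lt h2] at h4
    exact h4
  · intro x hx
    refine ⟨((x - a) * (P : ZMod l)⁻¹).val, ?_, ?_⟩
    · rw [memSS]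
      refine ⟨ZMod.val_lt _, ?_⟩
      have e : (a : ZMod l) + P * (((x - a) * (P : ZMod l)⁻¹).val : ℕ) = x := by
        rw [ZMod.natCast_zmod_val]
        field_simp
        ring
      rw [e]
      exact (memRR _ _).1 hx
    · rw [ZMod.natCast_zmod_val]
      field_simp
      ring

private theorem two_roots {l : ℕ} [NeZero l] [Fact l.Prime] (k x y : ZMod l) (hx : x ∈ RR l k)
    (hy : y ∈ RR l k) : y = x ∨ y = k - x := by
  rw [memRR] at hx hy
  have h : (y - x) * (y - (k - x)) = 0 := by linear_combination hy - hx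
  rcases mul_eq_zero.1 h with h1 | h1
  · exact Or.inl (sub_eq_zero.1 h1)
  · exact Or.inr (sub_eq_zero.1 h1)

private theorem le_two {l : ℕ} [NeZero l] [Fact l.Prime] (k : ZMod l) : (RR l k).card ≤ 2 := by
  rcases (RR l k).eq_empty_or_nonempty with h | ⟨x, hx⟩
  · rw [h]
    simp
  · have hs : RR l k ⊆ {x, k - x} := by
      intro y hy
      rw [mem_insert, mem_singleton]
      exact two_roots k x y hx hy
    exact (card_le_card hs).trans card_le_two

private theorem three_ne {l : ℕ} [Fact l.Prime] (h3 : 3 < l) : (3 : ZMod l) ≠ 0 := by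
  have h : ((3 : ℕ) : ZMod l) ≠ 0 := by
    rw [Ne, ZMod.natCast_eq_zero_iff]
    intro h
    exact absurd (Nat.le_of_dvd (by norm_num) h) (by omega)
  exact_mod_cast h

private theorem mod_of_root {l : ℕ} [Fact l.Prime] (h3 : 3 < l) (t : ZMod l)
    (ht : t ^ 2 - t + 1 = 0) : l % 3 = 1 := by
  have hl : l.Prime := Fact.out
  haveI : NeZero l := ⟨hl.ne_zero⟩
  have hu : (-t) * (-t) ^ 2 = 1 := by linear_combination (-(t + 1)) * ht
  obtain ⟨u, hu1⟩ : ∃ u : (ZMod l)ˣ, (u : ZMod l) = -t :=
    ⟨⟨-t, (-t) ^ 2, hu, by rw [mul_comm]; exact hu⟩, rfl⟩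
  have h1 : u ^ 3 = 1 := by
    apply Units.ext
    rw [Units.val_pow_eq_pow_val, Units.val_one, hu1]
    linear_combination hu
  have h2 : u ≠ 1 := by
    intro h
    rw [h, Units.val_one] at hu1
    have h4 : t = -1 := by linear_combination hu1
    rw [h4] at ht
    apply three_ne (l := l) h3
    linear_combination ht
  have h5 : orderOf u = 3 := orderOf_eq_prime h1 h2
  have h6 : orderOf u ∣ Fintype.card (ZMod l)ˣ := orderOf_dvd_card
  rw [h5, ZMod.card_units] at h6
  omega

private theorem root_of_mod {l : ℕ} [Fact l.Prime] (h : l % 3 = 1) :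
    ∃ t : ZMod l, t ^ 2 - t + 1 = 0 := by
  have hl : l.Prime := Fact.out
  haveI : NeZero l := ⟨hl.ne_zero⟩
  haveI : Fact (Nat.Prime 3) := ⟨Nat.prime_three⟩
  have h1 : 3 ∣ Fintype.card (ZMod l)ˣ := by
    rw [ZMod.card_units]
    have := hl.two_le
    omega
  obtain ⟨u, hu⟩ := exists_prime_orderOf_dvd_card 3 h1
  have h2 : u ^ 3 = 1 := by
    rw [← hu]
    exact pow_orderOf_eq_one u
  have h3 : (u : ZMod l) ≠ 1 := by
    intro h4
    have h5 : u = 1 := Units.ext (by rw [h4, Units.val_one])
    rw [h5, orderOf_one] at hu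
    omega
  have h4 : (u : ZMod l) ^ 3 = 1 := by
    rw [← Units.val_pow_eq_pow_val, h2, Units.val_one]
  refine ⟨-(u : ZMod l), ?_⟩
  have h5 : ((u : ZMod l) - 1) * ((u : ZMod l) ^ 2 + u + 1) = 0 := by linear_combination h4
  rcases mul_eq_zero.1 h5 with h6 | h6
  · exact absurd (sub_eq_zero.1 h6) h3
  · linear_combination h6

private theorem card_unit {l : ℕ} [NeZero l] [Fact l.Prime] (h3 : 3 < l) (k : ZMod l)
    (hk : k ≠ 0) : (RR l k).card = rh l := by
  unfold rh
  by_cases hm : l % 3 = 1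
  · rw [if_pos hm]
    obtain ⟨t, ht⟩ := root_of_mod (l := l) hm
    have e : RR l k = {k * t, k - k * t} := by
      ext y
      rw [mem_insert, mem_singleton]
      have hx : k * t ∈ RR l k := (memRR _ _).2 (by linear_combination k ^ 2 * ht)
      constructor
      · intro hy
        exact two_roots k (k * t) y hx hy
      · intro hy
        rcases hy with hy | hy
        · rw [hy]
          exact hx
        · rw [hy]
          exact (memRR _ _).2 (by linear_combination k ^ 2 * ht)
    rw [e, card_pair]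
    intro h
    have h1 : k * (2 * t - 1) = 0 := by linear_combination h
    have h2 : 2 * t - 1 = 0 := (mul_eq_zero.1 h1).resolve_left hk
    apply three_ne (l := l) h3
    linear_combination 4 * ht - (2 * t - 1) * h2
  · rw [if_neg hm, card_eq_zero]
    rw [eq_empty_iff_forall_notMem]
    intro x hx
    rw [memRR] at hx
    apply hm
    refine mod_of_root h3 (x * k⁻¹) ?_
    have e : (x * k⁻¹) ^ 2 - x * k⁻¹ + 1 = (x ^ 2 - x * k + k ^ 2) * (k⁻¹) ^ 2 := by
      field_simp
    rw [e, hx, zero_mul]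

/-- LOC. -/
theorem hLOC : StLOC := by
  intro P a l hl h3 hP
  haveI : Fact l.Prime := ⟨hl⟩
  haveI : NeZero l := ⟨hl.ne_zero⟩
  refine ⟨fun k => ?_, fun k hk => ?_, fun k hk => ?_, fun k k' hk' hD => ?_⟩
  · rw [cardSS hl hP]
    exact le_two _
  · rw [cardSS hl hP]
    have hk0 : (k : ZMod l) = 0 := by
      rw [ZMod.natCast_eq_zero_iff]
      exact hk
    rw [hk0]
    have hs : RR l (0 : ZMod l) ⊆ {0} := by
      intro y hy
      rw [mem_singleton]
      rw [memRR] at hy
      have h1 : y ^ 2 = 0 := by linear_combination hy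
      exact pow_eq_zero_iff (by norm_num) |>.1 h1
    exact (card_le_card hs).trans (by simp)
  · rw [cardSS hl hP]
    refine card_unit h3 _ ?_
    rw [Ne, ZMod.natCast_eq_zero_iff]
    exact hk
  · rw [Finset.disjoint_left]
    intro s hs hs'
    have h1 := ((memSS s).1 hs).2
    have h2 := ((memSS s).1 hs').2
    set x : ZMod l := (a : ZMod l) + P * s with hx
    have h4 : ((k : ZMod l) - k') * ((k : ZMod l) + k' - x) = 0 := by
      linear_combination h1 - h2
    apply hD
    unfold DD
    rcases mul_eq_zero.1 h4 with h5 | h5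
    · refine Dvd.dvd.mul_right (Dvd.dvd.mul_left ?_ _) _
      have h6 : (((k : ℤ) - k' : ℤ) : ZMod l) = 0 := by
        push_cast
        exact h5
      rw [ZMod.intCast_zmod_eq_zero_iff_dvd] at h6
      exact Int.natCast_dvd.1 h6
    · refine Dvd.dvd.mul_left ?_ _
      rw [← ZMod.natCast_eq_zero_iff]
      push_cast
      have h6 : x = (k : ZMod l) + k' := by linear_combination -h5
      rw [h6] at h1
      linear_combination h1

end Pool.Agent.Helper26.LM
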